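import Pool.Agent.Helper65.EV.St

/-!
# Project EV, module AAP: properties of the truncated logarithmic moment
-/

set_option autoImplicit false

open MeasureTheory ProbabilityTheory Set Filter
open scoped ENNReal Topology

namespace Pool.Agent.Helper13.EV

open Pool.Agent.Helper65.EV Pool.Agent.Helper84.Eve

private theorem meas (s : ℝ) : Measurable fun u : ℝ => ENNReal.ofReal (min (-Real.log (1 - u)) s) := by
  fun_prop

private theorem meas2 : Measurable fun u : ℝ => ENNReal.ofReal (u ^ 2)⁻¹ := by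
  fun_prop

private theorem AA_eq (Λ : Measure ℝ) (s : ℝ) : AA Λ s =
    ∫⁻ u, ENNReal.ofReal (u ^ 2)⁻¹ * ENNReal.ofReal (min (-Real.log (1 - u)) s) ∂Λ := by
  rw [AA, nu, lintegral_withDensity_eq_lintegral_mul _ meas2 (meas s)]
  rfl

private theorem neg_log_le {u : ℝ} (h0 : 0 ≤ u) (h1 : u ≤ 1 / 2) : -Real.log (1 - u) ≤ 2 * u := by
  have h2 : 0 < 1 - u := by linarith
  have h3 := Real.one_sub_inv_le_log_of_pos h2
  have h4 : (1 - u)⁻¹ ≤ 1 + 2 * u := by
    rw [inv_le_iff_one_le_mul₀ h2]
    nlinarith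
  linarith

private theorem pt_bound {u s : ℝ} (h0 : 0 ≤ u) :
    ENNReal.ofReal (u ^ 2)⁻¹ * ENNReal.ofReal (min (-Real.log (1 - u)) s) ≤
      2 * ENNReal.ofReal u⁻¹ + ENNReal.ofReal (4 * |s|) := by
  rcases le_total u (1 / 2) with h | h
  · refine le_trans ?_ le_self_add
    rcases eq_or_lt_of_le h0 with h2 | h2
    · rw [← h2]
      simp
    · have e : (2 : ℝ≥0∞) = ENNReal.ofReal 2 := by simp
      rw [e, ← ENNReal.ofReal_mul (by positivity), ← ENNReal.ofReal_mul (by norm_num)]
      refine ENNReal.ofReal_le_ofReal ?_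
      calc (u ^ 2)⁻¹ * min (-Real.log (1 - u)) s ≤ (u ^ 2)⁻¹ * (2 * u) := by
            gcongr
            exact (min_le_left _ _).trans (neg_log_le h0 h)
        _ = 2 * u⁻¹ := by field_simp
  · refine le_trans ?_ le_add_self
    rw [← ENNReal.ofReal_mul (by positivity)]
    refine ENNReal.ofReal_le_ofReal ?_
    have h3 : (u ^ 2)⁻¹ ≤ 4 := by
      rw [inv_le_iff_one_le_mul₀ (by positivity)]
      nlinarith
    calc (u ^ 2)⁻¹ * min (-Real.log (1 - u)) s ≤ (u ^ 2)⁻¹ * |s| := by
          gcongr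
          exact (min_le_right _ _).trans (le_abs_self s)
      _ ≤ 4 * |s| := by gcongr

theorem hAAP : AAP where
  ne_top := by
    intro Λ hr s
    have := hr.finite
    rw [AA_eq]
    have hsupp : ∀ᵐ u ∂Λ, u ∈ Icc (0 : ℝ) 1 := by
      rw [ae_iff]
      exact hr.supp
    have h1 : ∫⁻ u, ENNReal.ofReal (u ^ 2)⁻¹ * ENNReal.ofReal (min (-Real.log (1 - u)) s) ∂Λ ≤
        ∫⁻ u, (2 * ENNReal.ofReal u⁻¹ + ENNReal.ofReal (4 * |s|)) ∂Λ := by
      refine lintegral_mono_ae ?_
      filter_upwards [hsupp] with u hu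
      exact pt_bound hu.1
    have hm : Measurable fun u : ℝ => ENNReal.ofReal u⁻¹ := by fun_prop
    rw [lintegral_add_left (hm.const_mul 2), lintegral_const_mul _ hm, lintegral_const] at h1
    refine ne_top_of_le_ne_top ?_ h1
    refine ENNReal.add_ne_top.2 ⟨ENNReal.mul_ne_top (by simp) hr.dust.ne, ?_⟩
    exact ENNReal.mul_ne_top ENNReal.ofReal_ne_top (measure_ne_top _ _)
  ne_zero := by
    intro Λ hr s hs h
    rw [AA, lintegral_eq_zero_iff (meas s)] at h
    refine nu_Ioo_ne_zero hr ?_
    have h2 : Ioo (0 : ℝ) 1 ⊆ {u | ¬ (ENNReal.ofReal (min (-Real.log (1 - u)) s) = (0 : ℝ → ℝ≥0∞) u)} := by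
      intro u hu
      rw [mem_ofPred_eq, Pi.zero_apply, ENNReal.ofReal_eq_zero, not_le]
      refine lt_min ?_ hs
      have : Real.log (1 - u) < 0 := Real.log_neg (by linarith [hu.2]) (by linarith [hu.1])
      linarith
    exact measure_mono_null h2 (ae_iff.1 h)
  mono := by
    intro Λ s s' h
    refine lintegral_mono fun u => ?_
    exact ENNReal.ofReal_le_ofReal (min_le_min le_rfl h)
  scale := by
    intro Λ s s' hs hss
    rw [AA, AA, ← lintegral_mul_const _ (meas s'), ← lintegral_mul_const _ (meas s)]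
    refine lintegral_mono fun u => ?_
    have hs' : 0 < s' := lt_of_lt_of_le hs hss
    rcases le_total (-Real.log (1 - u)) 0 with h | h
    · have : ENNReal.ofReal (min (-Real.log (1 - u)) s') = 0 :=
        ENNReal.ofReal_eq_zero.2 ((min_le_left _ _).trans h)
      simp only [this, zero_mul]
      exact bot_le
    · have h1 : 0 ≤ min (-Real.log (1 - u)) s' := le_min h hs'.le
      have h2 : 0 ≤ min (-Real.log (1 - u)) s := le_min h hs.le
      simp only []
      rw [← ENNReal.ofReal_mul h1, ← ENNReal.ofReal_mul h2]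
      refine ENNReal.ofReal_le_ofReal ?_
      rcases le_total (-Real.log (1 - u)) s with h3 | h3
      · rw [min_eq_left h3, min_eq_left (h3.trans hss)]
        gcongr
      · rw [min_eq_right h3]
        calc min (-Real.log (1 - u)) s' * s ≤ s' * s := by
              gcongr
              exact min_le_right _ _
          _ = s * s' := mul_comm _ _

end Pool.Agent.Helper13.EV
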